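import Pool.Agent.H3.Spl5

open Metric Set NormedSpace

namespace Pool.Agent.Results.MP_18dddc_an.AnyOrder

open Pool.Agent.H3.Spl

/-- the space `ℂ^d` with the Euclidean norm -/
abbrev Cd (d : ℕ) : Type := EuclideanSpace ℂ (Fin d)

/-- `y = e^{τ f} x`: there is a solution of `γ' = τ f(γ)` on `[0,1]` with `γ 0 = x`, `γ 1 = y`. -/
def IsFlow {d : ℕ} (f : Cd d → Cd d) (τ : ℂ) (x y : Cd d) : Prop :=
  ∃ γ : ℝ → Cd d, γ 0 = x ∧ γ 1 = y ∧
    ∀ s ∈ Set.Icc (0 : ℝ) 1, HasDerivWithinAt γ (τ • f (γ s)) (Set.Icc 0 1) s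

/-- For the list `[(α₁,β₁), …, (α_k,β_k)]`:
`y = e^{α₁ T f₀} e^{β₁ T f₁} ⋯ e^{α_k T f₀} e^{β_k T f₁} x`. -/
def IsSplit {d : ℕ} (f₀ f₁ : Cd d → Cd d) (T : ℝ) : List (ℂ × ℂ) → Cd d → Cd d → Prop
  | [], x, y => y = x
  | c :: l, x, y => ∃ z w, IsSplit f₀ f₁ T l x z ∧ IsFlow f₁ (c.2 * T) z w ∧ IsFlow f₀ (c.1 * T) w y

/-- The list of coefficients is a splitting method of order at least `N`: for all holomorphic
vector fields and every initial point, for small `T > 0` all the flows exist and the error is at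
most `C T^(N+1)`. -/
def IsMethod (l : List (ℂ × ℂ)) (N : ℕ) : Prop :=
  ∀ (d : ℕ) (f₀ f₁ : Cd d → Cd d), Differentiable ℂ f₀ → Differentiable ℂ f₁ → ∀ x₀ : Cd d,
    ∃ C : ℝ, ∃ T₀ : ℝ, 0 < T₀ ∧ ∀ T : ℝ, 0 < T → T < T₀ →
      (∃ y, IsFlow (f₀ + f₁) T x₀ y) ∧ (∃ z, IsSplit f₀ f₁ T l x₀ z) ∧
      ∀ y z, IsFlow (f₀ + f₁) T x₀ y → IsSplit f₀ f₁ T l x₀ z → ‖y - z‖ ≤ C * T ^ (N + 1)

theorem flowB {N d : ℕ} {f : Bool → Cd d → Cd d} (hf : ∀ a, Differentiable ℂ (f a)) (x0 : Cd d)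
    (a b τ : ℂ) (g : Cd d → Cd d) (hg : ∀ y, a • f false y + b • f true y = τ • g y) :
    ∃ m : ℝ, 0 ≤ m ∧ ∀ v : Wn N → ℂ, ∃ K : ℝ, ∀ T : ℝ, 0 ≤ T → ∀ x, ‖x - x0‖ + m * T < 1 →
      (∃ y, IsFlow g (τ * T) x y) ∧ ∀ y, IsFlow g (τ * T) x y → ‖y - x‖ ≤ m * T ∧
        ‖ev f v T y - ev f (exp (a • sh N false + b • sh N true) v) T x‖ ≤ K * T ^ (N + 1) := by
  obtain ⟨m, hm, h⟩ := flowA (N := N) hf x0 a b
  refine ⟨m, hm, fun v => ?_⟩
  obtain ⟨K, hK⟩ := h v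
  refine ⟨K, fun T hT x hx => ?_⟩
  obtain ⟨⟨γ, h0, h1⟩, h2⟩ := hK T hT x hx
  simp only [hg, smul_smul, mul_comm (T : ℂ) τ] at h1 h2
  refine ⟨⟨γ 1, γ, h0, rfl, h1⟩, ?_⟩
  rintro y ⟨γ, h0, rfl, h1⟩
  exact h2 γ h0 h1

theorem chain {N d : ℕ} {f : Bool → Cd d → Cd d} (hf : ∀ a, Differentiable ℂ (f a)) (x0 : Cd d)
    (l : List (ℂ × ℂ)) : ∃ m : ℝ, 0 ≤ m ∧ ∀ v : Wn N → ℂ, ∃ K : ℝ, ∀ T : ℝ, 0 ≤ T → m * T < 1 →
      (∃ y, IsSplit (f false) (f true) T l x0 y) ∧ ∀ y, IsSplit (f false) (f true) T l x0 y →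
        ‖y - x0‖ ≤ m * T ∧
        ‖ev f v T y - ev f (((dat N).blk l).1 v) T x0‖ ≤ K * T ^ (N + 1) := by
  induction l with
  | nil =>
    refine ⟨0, le_rfl, fun v => ⟨0, fun T _ _ => ⟨⟨x0, rfl⟩, ?_⟩⟩⟩
    rintro y rfl
    simp [Dat.blk]
  | cons c l ih =>
    obtain ⟨m, hm, h⟩ := ih
    obtain ⟨m1, hm1, h1⟩ := flowB (N := N) hf x0 0 c.2 c.2 (f true) (by simp)
    obtain ⟨m0, hm0, h0⟩ := flowB (N := N) hf x0 c.1 0 c.1 (f false) (by simp)
    have z0 : ∀ a, (0 : ℂ) • sh N a = 0 := fun a => by ext; simp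
    simp only [z0, zero_add, add_zero] at h1 h0
    refine ⟨m + m1 + m0, by positivity, fun v => ?_⟩
    obtain ⟨K0, hK0⟩ := h0 v
    obtain ⟨K1, hK1⟩ := h1 (exp (c.1 • sh N false) v)
    obtain ⟨K, hK⟩ := h (exp (c.2 • sh N true) (exp (c.1 • sh N false) v))
    refine ⟨K0 + K1 + K, fun T hT hlt => ?_⟩
    have p0 := mul_nonneg hm hT
    have p1 := mul_nonneg hm1 hT
    have p2 := mul_nonneg hm0 hT
    obtain ⟨⟨z, hz⟩, hK'⟩ := hK T hT (by nlinarith)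
    have a1 : ∀ z, IsSplit (f false) (f true) T l x0 z → ‖z - x0‖ + m1 * T < 1 := fun z hz => by
      nlinarith [(hK' z hz).1]
    have a2 : ∀ z w, IsSplit (f false) (f true) T l x0 z → IsFlow (f true) (c.2 * T) z w →
        ‖w - x0‖ ≤ m * T + m1 * T := fun z w hz hw => by
      have := norm_sub_le_norm_sub_add_norm_sub w z x0
      linarith [(hK' z hz).1, ((hK1 T hT z (a1 z hz)).2 w hw).1]
    constructor
    · obtain ⟨w, hw⟩ := (hK1 T hT z (a1 z hz)).1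
      obtain ⟨y, hy⟩ := (hK0 T hT w (by nlinarith [a2 z w hz hw])).1
      exact ⟨y, z, w, hz, hw, hy⟩
    · rintro y ⟨z, w, hz, hw, hy⟩
      obtain ⟨b1, b2⟩ := (hK0 T hT w (by nlinarith [a2 z w hz hw])).2 y hy
      obtain ⟨-, b3⟩ := (hK1 T hT z (a1 z hz)).2 w hw
      obtain ⟨-, b4⟩ := hK' z hz
      constructor
      · have := norm_sub_le_norm_sub_add_norm_sub y w x0
        nlinarith [a2 z w hz hw]
      · have e : ((dat N).blk (c :: l)).1 v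
            = ((dat N).blk l).1 (exp (c.2 • sh N true) (exp (c.1 • sh N false) v)) := rfl
        rw [e]
        have t1 := norm_sub_le_norm_sub_add_norm_sub (ev f v T y)
          (ev f (exp (c.1 • sh N false) v) T w)
          (ev f (((dat N).blk l).1 (exp (c.2 • sh N true) (exp (c.1 • sh N false) v))) T x0)
        have t2 := norm_sub_le_norm_sub_add_norm_sub (ev f (exp (c.1 • sh N false) v) T w)
          (ev f (exp (c.2 • sh N true) (exp (c.1 • sh N false) v)) T z)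
          (ev f (((dat N).blk l).1 (exp (c.2 • sh N true) (exp (c.1 • sh N false) v))) T x0)
        nlinarith

theorem split_scale {d : ℕ} (f₀ f₁ : Cd d → Cd d) (t T : ℝ) (l : List (ℂ × ℂ)) (x y : Cd d) :
    IsSplit f₀ f₁ T (l.map fun c => (c.1 / t, c.2 / t)) x y ↔ IsSplit f₀ f₁ (T / t) l x y := by
  induction l generalizing y with
  | nil => rfl
  | cons c l ih =>
    have e : ∀ a : ℂ, a / t * T = a * ((T / t : ℝ) : ℂ) := fun a => by push_cast; ring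
    simp only [List.map_cons, IsSplit, ih, e]

theorem result : ∀ N : ℕ, ∃ l : List (ℂ × ℂ), l ≠ [] ∧ (∀ c ∈ l, 0 < c.1.re ∧ 0 < c.2.re) ∧
    IsMethod l N := by
  intro N
  obtain ⟨t, ht, l, ⟨hl0, hl⟩, hb⟩ := (dat N).alg_main
  refine ⟨l.map fun c => (c.1 / t, c.2 / t), by simpa using hl0, ?_, ?_⟩
  · intro c hc
    obtain ⟨c', hc', rfl⟩ := List.mem_map.1 hc
    simp only [Complex.div_ofReal_re]
    exact ⟨div_pos (hl c' hc').1 ht, div_pos (hl c' hc').2 ht⟩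
  · intro d f₀ f₁ h0 h1 x0
    let f : Bool → Cd d → Cd d := fun a => cond a f₁ f₀
    have hf : ∀ a, Differentiable ℂ (f a) := by rintro (_ | _) <;> assumption
    obtain ⟨m, hm, h⟩ := chain (N := N) hf x0 l
    obtain ⟨m', hm', h'⟩ := flowB (N := N) hf x0 t t t (f₀ + f₁) (by simp [f])
    obtain ⟨K, hK⟩ := h (Pi.single ⟨[], by simp⟩ 1)
    obtain ⟨K', hK'⟩ := h' (Pi.single ⟨[], by simp⟩ 1)
    refine ⟨(K + K') / t ^ (N + 1), t / (m + m' + 1), by positivity, fun T hT hT0 => ?_⟩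
    have hs : 0 < T / t := by positivity
    have h2 : (m + m' + 1) * (T / t) < 1 := by
      rw [lt_div_iff₀ (by positivity)] at hT0
      rw [← mul_div_assoc, div_lt_one ht]; linarith
    have p0 := mul_nonneg hm hs.le
    have p1 := mul_nonneg hm' hs.le
    obtain ⟨a1, a2⟩ := hK (T / t) hs.le (by nlinarith)
    obtain ⟨b1, b2⟩ := hK' (T / t) hs.le x0 (by simp only [sub_self, norm_zero]; nlinarith)
    have e : (t : ℂ) * ((T / t : ℝ) : ℂ) = T := by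
      have : (t : ℂ) ≠ 0 := by exact_mod_cast ht.ne'
      push_cast; field_simp
    rw [e] at b1 b2
    simp only [split_scale]
    refine ⟨b1, a1, fun y z hy hz => ?_⟩
    have c1 := (a2 z hz).2
    have c2 := (b2 y hy).2
    rw [hb, ev_single] at c1
    rw [ev_single] at c2
    have c3 := norm_sub_le_norm_sub_add_norm_sub y
      (ev f (exp ((t : ℂ) • sh N false + (t : ℂ) • sh N true) (Pi.single ⟨[], by simp⟩ 1)) (T / t) x0) z
    rw [norm_sub_rev] at c1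
    have c4 : (K + K') / t ^ (N + 1) * T ^ (N + 1) = K * (T / t) ^ (N + 1) + K' * (T / t) ^ (N + 1) := by
      rw [div_pow]; ring
    rw [c4]
    exact c3.trans (by
      have c5 : ‖ev f (exp ((t : ℂ) • sh N false + (t : ℂ) • sh N true)
        (Pi.single ⟨[], by simp⟩ 1)) (T / t) x0 - z‖ ≤ K * (T / t) ^ (N + 1) := c1
      linarith)

end Pool.Agent.Results.MP_18dddc_an.AnyOrder
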